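import Mathlib

/-!
# Kernels of normal Carleman operators are square-integrable in the first variable
-/

namespace Pool.Agent.Results.MP_0ee9ff_an.NormalCarlemanKernel

open MeasureTheory Filter Topology

section general

variable {μ : Measure ℝ}

lemma countable_of_orthonormal {E : Type*} [NormedAddCommGroup E] [InnerProductSpace ℂ E]
    [TopologicalSpace.SeparableSpace E] {ι : Type*} (v : ι → E) (hv : Orthonormal ℂ v) :
    Countable ι := by
  rw [← Set.countable_univ_iff]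
  have hd : (Set.univ : Set ι).PairwiseDisjoint fun i => Metric.ball (v i) (1 / 2) := by
    intro i _ j _ hij
    rw [Function.onFun, Set.disjoint_left]
    intro z hzi hzj
    rw [Metric.mem_ball] at hzi hzj
    have h1 : dist (v i) (v j) < 1 := by
      calc dist (v i) (v j) ≤ dist (v i) z + dist z (v j) := dist_triangle _ _ _
        _ < 1 / 2 + 1 / 2 := add_lt_add (by rw [dist_comm]; exact hzi) hzj
        _ = 1 := by norm_num
    have h2 : ‖v i - v j‖ ^ 2 = 2 := by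
      rw [@norm_sub_sq ℂ, hv.1 i, hv.1 j, hv.2 hij]
      norm_num
    rw [dist_eq_norm] at h1
    nlinarith [norm_nonneg (v i - v j)]
  exact hd.countable_of_isOpen (fun i _ => Metric.isOpen_ball)
    (fun i _ => ⟨v i, Metric.mem_ball_self (by norm_num)⟩)

lemma parseval {ι : Type*} (b : HilbertBasis ι ℂ (Lp ℂ 2 μ)) (h : Lp ℂ 2 μ) :
    ∑' i, ‖(inner ℂ (b i) h : ℂ)‖ₑ ^ 2 = ‖h‖ₑ ^ 2 := by
  have h1 := b.hasSum_inner_mul_inner h h
  have h2 : HasSum (fun i => ‖(inner ℂ (b i) h : ℂ)‖ ^ 2) (‖h‖ ^ 2) := by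
    have h3 := (Complex.reCLM.hasSum h1)
    have h4 : Complex.reCLM (inner ℂ h h : ℂ) = ‖h‖ ^ 2 := by
      rw [inner_self_eq_norm_sq_to_K]
      change (((‖h‖ : ℝ) : ℂ) ^ 2).re = ‖h‖ ^ 2
      rw [← Complex.ofReal_pow, Complex.ofReal_re]
    rw [h4] at h3
    refine h3.congr_fun ?_ |> fun h => h
    intro i
    simp only [Complex.reCLM_apply]
    rw [← inner_conj_symm h (b i), mul_comm, Complex.mul_conj, Complex.ofReal_re,
      Complex.normSq_eq_norm_sq]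
  have h5 : ∀ i, ‖(inner ℂ (b i) h : ℂ)‖ₑ ^ 2 =
      ENNReal.ofReal (‖(inner ℂ (b i) h : ℂ)‖ ^ 2) := by
    intro i
    rw [ENNReal.ofReal_pow (norm_nonneg _), ofReal_norm]
  simp_rw [h5]
  rw [← ENNReal.ofReal_tsum_of_nonneg (fun i => by positivity) h2.summable, h2.tsum_eq,
    ENNReal.ofReal_pow (norm_nonneg _), ofReal_norm]

lemma enorm_sq (h : Lp ℂ 2 μ) : ‖h‖ₑ ^ 2 = ∫⁻ y, ‖h y‖ₑ ^ 2 ∂μ := by
  rw [Lp.enorm_def, eLpNorm_eq_lintegral_rpow_enorm_toReal (by norm_num) (by norm_num)]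
  simp only [ENNReal.toReal_ofNat, ENNReal.rpow_ofNat, one_div]
  rw [← ENNReal.rpow_ofNat, ← ENNReal.rpow_mul]
  norm_num

lemma integral_kernel_eq {k : ℝ → ℂ} (hk : MemLp k 2 μ) (f : Lp ℂ 2 μ) :
    ∫ y, k y * f y ∂μ = inner ℂ (hk.star.toLp _) f := by
  rw [L2.inner_def]
  apply integral_congr_ae
  filter_upwards [hk.star.coeFn_toLp] with y hy
  rw [hy, RCLike.inner_apply]
  simp [mul_comm]

lemma parseval_fun {ι : Type*} (b : HilbertBasis ι ℂ (Lp ℂ 2 μ)) {g : ℝ → ℂ}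
    (hg : MemLp g 2 μ) : ∑' i, ‖∫ y, g y * b i y ∂μ‖ₑ ^ 2 = ∫⁻ y, ‖g y‖ₑ ^ 2 ∂μ := by
  have h1 : ∀ i, ‖∫ y, g y * b i y ∂μ‖ₑ ^ 2 =
      ‖(inner ℂ (b i) (hg.star.toLp _) : ℂ)‖ₑ ^ 2 := by
    intro i
    rw [integral_kernel_eq hg, ← ofReal_norm, ← ofReal_norm, norm_inner_symm]
  simp_rw [h1]
  rw [parseval, enorm_sq]
  apply lintegral_congr_ae
  filter_upwards [hg.star.coeFn_toLp] with y hy
  rw [hy, Pi.star_apply, ← ofReal_norm, ← ofReal_norm, norm_star]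

/-- Multiplication by the indicator of `E`. -/
noncomputable def cut (E : Set ℝ) (hE : MeasurableSet E) (f : Lp ℂ 2 μ) : Lp ℂ 2 μ :=
  ((Lp.memLp f).indicator hE).toLp _

lemma cut_ae (E : Set ℝ) (hE : MeasurableSet E) (f : Lp ℂ 2 μ) :
    cut E hE f =ᵐ[μ] E.indicator f := MemLp.coeFn_toLp _

lemma cut_inner (E : Set ℝ) (hE : MeasurableSet E) (f g : Lp ℂ 2 μ) :
    (inner ℂ f (cut E hE g) : ℂ) = inner ℂ (cut E hE f) g := by
  rw [L2.inner_def, L2.inner_def]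
  apply integral_congr_ae
  filter_upwards [cut_ae E hE f, cut_ae E hE g] with y hf hg
  rw [hf, hg]
  by_cases hy : y ∈ E
  · rw [Set.indicator_of_mem hy, Set.indicator_of_mem hy]
  · rw [Set.indicator_of_notMem hy, Set.indicator_of_notMem hy]; simp

/-- The key identity. -/
lemma key_identity [SigmaFinite μ] (N : Lp ℂ 2 μ →L[ℂ] Lp ℂ 2 μ)
    (hN : ∀ f, ‖N f‖ = ‖ContinuousLinearMap.adjoint N f‖)
    (ν : ℝ → ℝ → ℂ) (hL : ∀ᵐ x ∂μ, MemLp (ν x) 2 μ)
    (hrep : ∀ f : Lp ℂ 2 μ, ∀ᵐ x ∂μ, N f x = ∫ y, ν x y * f y ∂μ)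
    (E : Set ℝ) (hE : MeasurableSet E) :
    ∫⁻ x, ∫⁻ y in E, ‖ν x y‖ₑ ^ 2 ∂μ ∂μ = ∫⁻ x in E, ∫⁻ y, ‖ν x y‖ₑ ^ 2 ∂μ ∂μ := by
  have : Fact ((2 : ENNReal) ≠ ⊤) := ⟨by norm_num⟩
  obtain ⟨w, b, -⟩ := exists_hilbertBasis ℂ (Lp ℂ 2 μ)
  have : Countable w := countable_of_orthonormal b b.orthonormal
  have hmeas : ∀ f : Lp ℂ 2 μ, AEMeasurable (fun x => ‖f x‖ₑ ^ 2) μ := by
    intro f
    exact ((Lp.aestronglyMeasurable f).enorm.pow_const 2)
  have hA : ∫⁻ x, ∫⁻ y in E, ‖ν x y‖ₑ ^ 2 ∂μ ∂μ = ∑' i, ‖N (cut E hE (b i))‖ₑ ^ 2 := by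
    have h1 : ∀ᵐ x ∂μ, ∀ i, N (cut E hE (b i)) x = ∫ y, E.indicator (ν x) y * b i y ∂μ := by
      rw [ae_all_iff]
      intro i
      filter_upwards [hrep (cut E hE (b i))] with x hx
      rw [hx]
      apply integral_congr_ae
      filter_upwards [cut_ae E hE (b i)] with y hy
      rw [hy]
      by_cases hyE : y ∈ E
      · rw [Set.indicator_of_mem hyE, Set.indicator_of_mem hyE]
      · rw [Set.indicator_of_notMem hyE, Set.indicator_of_notMem hyE]; simp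
    have h2 : ∫⁻ x, ∫⁻ y in E, ‖ν x y‖ₑ ^ 2 ∂μ ∂μ =
        ∫⁻ x, ∑' i, ‖N (cut E hE (b i)) x‖ₑ ^ 2 ∂μ := by
      apply lintegral_congr_ae
      filter_upwards [h1, hL] with x hx hxL
      simp_rw [hx]
      rw [parseval_fun b (hxL.indicator hE), ← lintegral_indicator hE]
      apply lintegral_congr
      intro y
      by_cases hyE : y ∈ E
      · rw [Set.indicator_of_mem hyE, Set.indicator_of_mem hyE]
      · rw [Set.indicator_of_notMem hyE, Set.indicator_of_notMem hyE]; simp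
    rw [h2, lintegral_tsum (fun i => hmeas _)]
    apply tsum_congr
    intro i
    rw [enorm_sq]
  have hB : ∫⁻ x in E, ∫⁻ y, ‖ν x y‖ₑ ^ 2 ∂μ ∂μ = ∑' j, ‖cut E hE (N (b j))‖ₑ ^ 2 := by
    have h1 : ∀ᵐ x ∂μ, ∀ j, N (b j) x = ∫ y, ν x y * b j y ∂μ := by
      rw [ae_all_iff]
      intro j
      exact hrep (b j)
    have h2 : ∫⁻ x in E, ∫⁻ y, ‖ν x y‖ₑ ^ 2 ∂μ ∂μ =
        ∫⁻ x, ∑' j, ‖cut E hE (N (b j)) x‖ₑ ^ 2 ∂μ := by
      rw [← lintegral_indicator hE]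
      apply lintegral_congr_ae
      have h3 : ∀ᵐ x ∂μ, ∀ j, cut E hE (N (b j)) x = E.indicator (N (b j)) x := by
        rw [ae_all_iff]
        intro j
        exact cut_ae E hE _
      filter_upwards [h1, hL, h3] with x hx hxL hx3
      simp_rw [hx3]
      by_cases hxE : x ∈ E
      · rw [Set.indicator_of_mem hxE, ← parseval_fun b hxL]
        apply tsum_congr
        intro j
        rw [Set.indicator_of_mem hxE, hx j]
      · rw [Set.indicator_of_notMem hxE]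
        symm
        rw [ENNReal.tsum_eq_zero]
        intro j
        rw [Set.indicator_of_notMem hxE]
        simp
    rw [h2, lintegral_tsum (fun j => hmeas _)]
    apply tsum_congr
    intro j
    rw [enorm_sq]
  rw [hA, hB]
  have hC : ∀ i, ‖N (cut E hE (b i))‖ₑ ^ 2 =
      ∑' j, ‖(inner ℂ (b i) (cut E hE (N (b j))) : ℂ)‖ₑ ^ 2 := by
    intro i
    have h1 : ‖N (cut E hE (b i))‖ₑ = ‖ContinuousLinearMap.adjoint N (cut E hE (b i))‖ₑ := by
      rw [← ofReal_norm, ← ofReal_norm, hN]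
    rw [h1, ← parseval b]
    apply tsum_congr
    intro j
    rw [ContinuousLinearMap.adjoint_inner_right, cut_inner, ← ofReal_norm, ← ofReal_norm,
      norm_inner_symm]
  simp_rw [hC]
  rw [ENNReal.tsum_comm]
  apply tsum_congr
  intro j
  rw [parseval]

/-- The general statement. -/
lemma general [SigmaFinite μ] (N : Lp ℂ 2 μ →L[ℂ] Lp ℂ 2 μ)
    (hN : ∀ f, ‖N f‖ = ‖ContinuousLinearMap.adjoint N f‖)
    (ν : ℝ → ℝ → ℂ) (hm : AEStronglyMeasurable (Function.uncurry ν) (μ.prod μ))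
    (hL : ∀ᵐ x ∂μ, MemLp (ν x) 2 μ)
    (hrep : ∀ f : Lp ℂ 2 μ, ∀ᵐ x ∂μ, N f x = ∫ y, ν x y * f y ∂μ) :
    ∀ᵐ y ∂μ, MemLp (fun x => ν x y) 2 μ := by
  -- a measurable version of the kernel
  set κ : ℝ × ℝ → ℂ := hm.mk _ with hκ
  have hκm : Measurable κ := hm.stronglyMeasurable_mk.measurable
  have hκae : ∀ᵐ q ∂(μ.prod μ), Function.uncurry ν q = κ q := hm.ae_eq_mk
  have hrow : ∀ᵐ x ∂μ, ∀ᵐ y ∂μ, ν x y = κ (x, y) := Measure.ae_ae_of_ae_prod hκae
  have hcol : ∀ᵐ y ∂μ, ∀ᵐ x ∂μ, ν x y = κ (x, y) := by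
    have h1 : ∀ᵐ q ∂(μ.prod μ), Function.uncurry ν q.swap = κ q.swap := by
      have h2 : Measure.QuasiMeasurePreserving (Prod.swap : ℝ × ℝ → ℝ × ℝ) (μ.prod μ)
          (μ.prod μ) := (Measure.measurePreserving_swap (μ := μ) (ν := μ)).quasiMeasurePreserving
      exact h2.ae hκae
    exact Measure.ae_ae_of_ae_prod h1
  have hkey := key_identity N hN ν hL hrep
  -- the square function
  set Φ : ℝ → ENNReal := fun x => ∫⁻ y, ‖κ (x, y)‖ₑ ^ 2 ∂μ with hΦ
  have hΦm : Measurable Φ := by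
    apply Measurable.lintegral_prod_right' (f := fun q : ℝ × ℝ => ‖κ q‖ₑ ^ 2)
    exact hκm.enorm.pow_const 2
  have hΦfin : ∀ᵐ x ∂μ, Φ x < ⊤ := by
    filter_upwards [hrow, hL] with x hx hxL
    have h1 : Φ x = ∫⁻ y, ‖ν x y‖ₑ ^ 2 ∂μ := by
      rw [hΦ]
      apply lintegral_congr_ae
      filter_upwards [hx] with y hy
      rw [hy]
    rw [h1]
    have h2 := (eLpNorm_lt_top_iff_lintegral_rpow_enorm_lt_top (by norm_num)
      (by norm_num)).1 hxL.2
    simpa using h2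
  -- exhausting sets
  set E : ℕ → Set ℝ := fun M => spanningSets μ M ∩ {x | Φ x ≤ M} with hEdef
  have hEm : ∀ M, MeasurableSet (E M) := fun M =>
    (measurableSet_spanningSets μ M).inter (measurableSet_le hΦm measurable_const)
  have hfinite : ∀ M, ∀ᵐ y ∂μ, y ∈ E M → ∫⁻ x, ‖κ (x, y)‖ₑ ^ 2 ∂μ < ⊤ := by
    intro M
    have h1 : ∫⁻ y in E M, ∫⁻ x, ‖κ (x, y)‖ₑ ^ 2 ∂μ ∂μ < ⊤ := by
      have h2 : ∫⁻ y in E M, ∫⁻ x, ‖κ (x, y)‖ₑ ^ 2 ∂μ ∂μ =
          ∫⁻ x, ∫⁻ y in E M, ‖κ (x, y)‖ₑ ^ 2 ∂μ ∂μ := by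
        rw [lintegral_lintegral_swap]
        apply Measurable.aemeasurable
        exact (hκm.comp measurable_swap).enorm.pow_const 2
      have h3 : ∫⁻ x, ∫⁻ y in E M, ‖κ (x, y)‖ₑ ^ 2 ∂μ ∂μ =
          ∫⁻ x, ∫⁻ y in E M, ‖ν x y‖ₑ ^ 2 ∂μ ∂μ := by
        apply lintegral_congr_ae
        filter_upwards [hrow] with x hx
        apply lintegral_congr_ae
        filter_upwards [ae_restrict_of_ae hx] with y hy
        rw [hy]
      have h4 : ∫⁻ x in E M, ∫⁻ y, ‖ν x y‖ₑ ^ 2 ∂μ ∂μ = ∫⁻ x in E M, Φ x ∂μ := by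
        apply lintegral_congr_ae
        filter_upwards [ae_restrict_of_ae hrow] with x hx
        rw [hΦ]
        apply lintegral_congr_ae
        filter_upwards [hx] with y hy
        rw [hy]
      rw [h2, h3, hkey _ (hEm M), h4]
      calc ∫⁻ x in E M, Φ x ∂μ ≤ ∫⁻ x in E M, (M : ENNReal) ∂μ := by
            apply setLIntegral_mono' (hEm M)
            intro x hx
            exact hx.2
        _ = M * μ (E M) := by rw [setLIntegral_const]
        _ < ⊤ := by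
            apply ENNReal.mul_lt_top (ENNReal.natCast_lt_top M)
            exact lt_of_le_of_lt (measure_mono Set.inter_subset_left)
              (measure_spanningSets_lt_top μ M)
    have h5 : Measurable fun y => ∫⁻ x, ‖κ (x, y)‖ₑ ^ 2 ∂μ := by
      apply Measurable.lintegral_prod_left' (f := fun q : ℝ × ℝ => ‖κ q‖ₑ ^ 2)
      exact hκm.enorm.pow_const 2
    have h6 := ae_lt_top h5 h1.ne
    rwa [ae_restrict_iff' (hEm M)] at h6
  have hcover : ∀ᵐ y ∂μ, ∃ M, y ∈ E M := by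
    filter_upwards [hΦfin] with y hy
    obtain ⟨M₁, hM₁⟩ := Set.mem_iUnion.1 ((iUnion_spanningSets μ).symm ▸ Set.mem_univ y :
      y ∈ ⋃ i, spanningSets μ i)
    obtain ⟨M₂, hM₂⟩ := ENNReal.exists_nat_gt hy.ne
    refine ⟨max M₁ M₂, monotone_spanningSets μ (le_max_left _ _) hM₁, ?_⟩
    have : (M₂ : ENNReal) ≤ ((max M₁ M₂ : ℕ) : ENNReal) := by exact_mod_cast le_max_right _ _
    exact hM₂.le.trans this
  filter_upwards [hcover, ae_all_iff.2 hfinite, hcol] with y hy1 hy2 hy3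
  obtain ⟨M, hM⟩ := hy1
  have h7 := hy2 M hM
  have h8 : MemLp (fun x => κ (x, y)) 2 μ := by
    refine ⟨(hκm.comp (measurable_id.prodMk measurable_const)).aestronglyMeasurable, ?_⟩
    rw [eLpNorm_lt_top_iff_lintegral_rpow_enorm_lt_top (by norm_num) (by norm_num)]
    simpa using h7
  exact h8.ae_eq (by filter_upwards [hy3] with x hx; rw [hx])

end general

/-- Lebesgue measure on the interval `(a, b)`, `-∞ ≤ a < b ≤ ∞`. -/
noncomputable def intervalMeasure (a b : EReal) : Measure ℝ :=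
  volume.restrict {x : ℝ | a < (x : EReal) ∧ (x : EReal) < b}

/-- The Hilbert space `L²(μ)` of complex-valued functions (Mathlib's `Lp ℂ 2 μ`). -/
def L2 (μ : Measure ℝ) : Type := Lp ℂ 2 μ

/-- The standard norm and addition of `L²(μ)`. -/
noncomputable instance (μ : Measure ℝ) : NormedAddCommGroup (L2 μ) :=
  inferInstanceAs (NormedAddCommGroup (Lp ℂ 2 μ))

/-- The standard inner product of `L²(μ)`. -/
noncomputable instance (μ : Measure ℝ) : InnerProductSpace ℂ (L2 μ) :=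
  inferInstanceAs (InnerProductSpace ℂ (Lp ℂ 2 μ))

/-- `L²(μ)` is complete. -/
instance (μ : Measure ℝ) : CompleteSpace (L2 μ) :=
  inferInstanceAs (CompleteSpace (Lp ℂ 2 μ))

/-- A representative of an element of `L²(μ)`. -/
noncomputable def L2.fn {μ : Measure ℝ} (f : L2 μ) : ℝ → ℂ :=
  ((show Lp ℂ 2 μ from f : Lp ℂ 2 μ) : ℝ → ℂ)

/-- `N` is a bounded linear operator on `L²(μ)`. -/
def IsBoundedOp {μ : Measure ℝ} (N : L2 μ → L2 μ) : Prop :=
  (∀ f g, N (f + g) = N f + N g) ∧ (∀ (c : ℂ) f, N (c • f) = c • N f) ∧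
    ∃ C : ℝ, ∀ f, ‖N f‖ ≤ C * ‖f‖

/-- `N` is normal: it commutes with its adjoint `M`. -/
def IsNormalOp {μ : Measure ℝ} (N : L2 μ → L2 μ) : Prop :=
  ∃ M : L2 μ → L2 μ, (∀ f g, inner ℂ (N f) g = inner ℂ f (M g)) ∧ ∀ f, N (M f) = M (N f)

/-- `N` is represented by the Carleman kernel `ν`. -/
def IsCarlemanWith {μ : Measure ℝ} (N : L2 μ → L2 μ) (ν : ℝ → ℝ → ℂ) : Prop :=
  AEStronglyMeasurable (Function.uncurry ν) (μ.prod μ) ∧ (∀ᵐ x ∂μ, MemLp (ν x) 2 μ) ∧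
    ∀ f : L2 μ, ∀ᵐ x ∂μ, (N f).fn x = ∫ y, ν x y * f.fn y ∂μ

/-- **Main result.** For every interval `(a,b)` and every bounded normal Carleman operator `N`
on `L²(a,b)` with kernel `ν`, the function `ν(·,y)` is square-integrable on `(a,b)` for almost
every `y`. -/
theorem result (a b : EReal) (N : L2 (intervalMeasure a b) → L2 (intervalMeasure a b))
    (hb : IsBoundedOp N) (hN : IsNormalOp N) (ν : ℝ → ℝ → ℂ) (hν : IsCarlemanWith N ν) :
    ∀ᵐ y ∂(intervalMeasure a b), MemLp (fun x => ν x y) 2 (intervalMeasure a b) := by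
  have : SigmaFinite (intervalMeasure a b) := by unfold intervalMeasure; infer_instance
  obtain ⟨hadd, hsmul, C, hC⟩ := hb
  obtain ⟨M, hM1, hM2⟩ := hN
  let T : L2 (intervalMeasure a b) →L[ℂ] L2 (intervalMeasure a b) :=
    LinearMap.mkContinuous { toFun := N, map_add' := hadd, map_smul' := hsmul } C hC
  have hTN : ∀ f, T f = N f := fun f => rfl
  have hadj : ∀ g, ContinuousLinearMap.adjoint T g = M g := by
    intro g
    apply ext_inner_left ℂ
    intro f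
    rw [ContinuousLinearMap.adjoint_inner_right, hTN, hM1]
  have hnorm : ∀ f, ‖T f‖ = ‖ContinuousLinearMap.adjoint T f‖ := by
    intro f
    rw [hadj, hTN]
    have h1 : (inner ℂ (N f) (N f) : ℂ) = inner ℂ (M f) (M f) := by
      calc (inner ℂ (N f) (N f) : ℂ) = inner ℂ f (M (N f)) := hM1 _ _
        _ = inner ℂ f (N (M f)) := by rw [hM2]
        _ = starRingEnd ℂ (inner ℂ (N (M f)) f) := (inner_conj_symm _ _).symm
        _ = starRingEnd ℂ (inner ℂ (M f) (M f)) := by rw [hM1]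
        _ = inner ℂ (M f) (M f) := inner_conj_symm _ _
    rw [inner_self_eq_norm_sq_to_K, inner_self_eq_norm_sq_to_K] at h1
    have h2 : ‖N f‖ ^ 2 = ‖M f‖ ^ 2 := by exact_mod_cast h1
    exact (pow_left_inj₀ (norm_nonneg _) (norm_nonneg _) (by norm_num)).1 h2
  exact general (μ := intervalMeasure a b) T hnorm ν hν.1 hν.2.1 hν.2.2

end Pool.Agent.Results.MP_0ee9ff_an.NormalCarlemanKernel
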